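import Pool.Agent.Y990.OA.Stm

set_option autoImplicit false

/-!
OA-EXP: exponential supermartingale of an exploration.
-/

namespace Pool.Agent.Y941.OA

open Finset H974 Pool.Agent.Y990.OA Pool.Agent.Y990.PL

/-- the one-step inequality -/
theorem step_le {q l : ℝ} (q0 : 0 ≤ q) (q1 : q ≤ 1) (l0 : 0 ≤ l) (l1 : l ≤ 1) :
    q * Real.exp (l * (q - 1) - l ^ 2 / 4) + (1 - q) * Real.exp (l * q - l ^ 2 / 4) ≤ 1 := by
  have key : ∀ y : ℝ, |y| ≤ 1 → Real.exp y ≤ 1 + y + y ^ 2 := by
    intro y hy
    have h := Real.abs_exp_sub_one_sub_id_le hy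
    have h2 := (le_abs_self _).trans h
    linarith
  have h1 := key (l * (q - 1)) (by rw [abs_le]; constructor <;> nlinarith)
  have h0 := key (l * q) (by rw [abs_le]; constructor <;> nlinarith)
  have h2 : q * Real.exp (l * (q - 1)) + (1 - q) * Real.exp (l * q) ≤ Real.exp (l ^ 2 / 4) := by
    have e1 := mul_le_mul_of_nonneg_left h1 q0
    have e0 := mul_le_mul_of_nonneg_left h0 (by linarith : (0 : ℝ) ≤ 1 - q)
    have e2 : q * (1 + l * (q - 1) + (l * (q - 1)) ^ 2) + (1 - q) * (1 + l * q + (l * q) ^ 2) =
        1 + l ^ 2 * (q * (1 - q)) := by ring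
    have e3 : q * (1 - q) ≤ 1 / 4 := by nlinarith [sq_nonneg (q - 1 / 2)]
    have e4 : l ^ 2 * (q * (1 - q)) ≤ l ^ 2 * (1 / 4) :=
      mul_le_mul_of_nonneg_left e3 (sq_nonneg l)
    have e5 := Real.add_one_le_exp (l ^ 2 / 4)
    linarith
  rw [Real.exp_sub, Real.exp_sub, mul_div_assoc', mul_div_assoc', ← add_div,
    div_le_one (Real.exp_pos _)]
  exact h2

variable {E W : Type} [DecidableEq E]

/-- the exponent -/
noncomputable def xp (p : E → ℝ) (T : Finset E) (C : Finset E → Set W) (t : E → Set W → Prop)
    (l : ℝ) (F O A : Finset E) : ℝ :=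
  ∑ e ∈ F, ind (t e (C (O ∪ A))) * (ind (e ∈ T) * (l * (p e - ind (e ∈ A)) - l ^ 2 / 4))

theorem exp_aux {S T : Finset E} {p : E → ℝ} {v : ℝ} {C : Finset E → Set W}
    {t : E → Set W → Prop} (hp : Ok p) (hX : Expl S p v C t) {l : ℝ} (l0 : 0 ≤ l) (l1 : l ≤ 1) :
    ∀ (k : ℕ) (F R O : Finset E), F.card = k → Disjoint F R → F ∪ R = S → O ⊆ R →
      (∀ e ∈ R, t e (C O)) → Ex p F (fun A => Real.exp (xp p T C t l F O A)) ≤ 1 := by
  intro k
  induction k with
  | zero =>
    intro F R O hF hd hFR hO hR
    rw [Finset.card_eq_zero] at hF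
    subst hF
    rw [Ex_empty]
    unfold xp
    rw [Finset.sum_empty, Real.exp_zero]
  | succ k ih =>
    intro F R O hF hd hFR hO hR
    have hRS : R ⊆ S := by rw [← hFR]; exact Finset.subset_union_right
    have hFS : F ⊆ S := by rw [← hFR]; exact Finset.subset_union_left
    have hOS : O ⊆ S := hO.trans hRS
    by_cases hex : ∃ e ∈ F, t e (C O)
    swap
    · -- nothing more to explore
      push Not at hex
      have hCA : ∀ A, A ⊆ F → C (O ∪ A) = C O := by
        intro A hA
        apply hX.stop _ _ Finset.subset_union_left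
          (Finset.union_subset hOS (hA.trans hFS))
        intro e he heO
        rcases Finset.mem_union.mp he with h | h
        · exact absurd h heO
        · exact hex e (hA h)
      have : ∀ A, A ⊆ F → Real.exp (xp p T C t l F O A) = 1 := by
        intro A hA
        unfold xp
        rw [hCA A hA, Finset.sum_eq_zero, Real.exp_zero]
        intro e he
        rw [ind_not_of (hex e he), zero_mul]
      rw [Ex_congr this, Ex_const]
    obtain ⟨e, heF, hte⟩ := hex
    -- explore `e`
    set F' := F.erase e with hF'
    have heF' : e ∉ F' := Finset.notMem_erase e F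
    have hFe : F = insert e F' := (Finset.insert_erase heF).symm
    have heR : e ∉ R := Finset.disjoint_left.mp hd heF
    have hcard : F'.card = k := by
      rw [hF', Finset.card_erase_of_mem heF, hF]; rfl
    have hd' : Disjoint F' (insert e R) := by
      rw [Finset.disjoint_insert_right]
      exact ⟨heF', Finset.disjoint_of_subset_left (Finset.erase_subset _ _) hd⟩
    have hFR' : F' ∪ insert e R = S := by
      rw [← hFR, hFe]
      ext x
      simp only [Finset.mem_union, Finset.mem_insert]
      tauto
    have hR' : ∀ e' ∈ insert e R, t e' (C O) := by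
      intro e' he'
      rcases Finset.mem_insert.mp he' with h | h
      · rw [h]; exact hte
      · exact hR e' h
    have hR'' : ∀ e' ∈ insert e R, t e' (C (insert e O)) := fun e' he' =>
      hX.tmono _ _ _ (hX.mono _ _ (Finset.subset_insert _ _)) (hR' e' he')
    have i1 := ih F' (insert e R) (insert e O) hcard hd' hFR'
      (Finset.insert_subset_insert _ hO) hR''
    have i0 := ih F' (insert e R) O hcard hd' hFR'
      (hO.trans (Finset.subset_insert _ _)) hR'
    rw [hFe, Ex_insert p heF']
    have e1 : Ex p F' (fun A => Real.exp (xp p T C t l (insert e F') O (insert e A))) =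
        Real.exp (ind (e ∈ T) * (l * (p e - 1) - l ^ 2 / 4)) *
          Ex p F' (fun A => Real.exp (xp p T C t l F' (insert e O) A)) := by
      rw [← Ex_mul_left]
      apply Ex_congr
      intro A hA
      have hu : O ∪ insert e A = insert e O ∪ A := by
        ext x
        simp only [Finset.mem_union, Finset.mem_insert]
        tauto
      rw [← Real.exp_add]
      congr 1
      unfold xp
      rw [hu, Finset.sum_insert heF']
      have h1 : ind (t e (C (insert e O ∪ A))) = 1 := by
        apply ind_of
        apply hX.tmono _ _ _ _ hte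
        apply hX.mono
        exact (Finset.subset_insert _ _).trans Finset.subset_union_left
      have h2 : ind (e ∈ insert e A) = 1 := ind_of (Finset.mem_insert_self _ _)
      rw [h1, h2, one_mul]
      congr 1
      apply Finset.sum_congr rfl
      intro e' he'
      have hne : e' ≠ e := fun h => heF' (h ▸ he')
      have : ind (e' ∈ insert e A) = ind (e' ∈ A) := ind_congr (by
        rw [Finset.mem_insert]
        exact ⟨fun h => h.resolve_left hne, Or.inr⟩)
      rw [this]
    have e0 : Ex p F' (fun A => Real.exp (xp p T C t l (insert e F') O A)) =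
        Real.exp (ind (e ∈ T) * (l * p e - l ^ 2 / 4)) *
          Ex p F' (fun A => Real.exp (xp p T C t l F' O A)) := by
      rw [← Ex_mul_left]
      apply Ex_congr
      intro A hA
      rw [← Real.exp_add]
      congr 1
      unfold xp
      rw [Finset.sum_insert heF']
      have h1 : ind (t e (C (O ∪ A))) = 1 := by
        apply ind_of
        apply hX.tmono _ _ _ _ hte
        apply hX.mono
        exact Finset.subset_union_left
      have h2 : ind (e ∈ A) = 0 := ind_not_of (fun h => heF' (hA h))
      rw [h1, h2, one_mul, sub_zero]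
    rw [e1, e0]
    obtain ⟨q0, q1⟩ := hp e
    have k1 := mul_le_mul_of_nonneg_left i1
      (Real.exp_pos (ind (e ∈ T) * (l * (p e - 1) - l ^ 2 / 4))).le
    have k0 := mul_le_mul_of_nonneg_left i0
      (Real.exp_pos (ind (e ∈ T) * (l * p e - l ^ 2 / 4))).le
    rw [mul_one] at k1 k0
    have k3 := mul_le_mul_of_nonneg_left k1 q0
    have k2 := mul_le_mul_of_nonneg_left k0 (by linarith : (0 : ℝ) ≤ 1 - p e)
    refine (add_le_add k3 k2).trans ?_
    by_cases heT : e ∈ T
    · rw [ind_of heT, one_mul, one_mul]
      exact step_le q0 q1 l0 l1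
    · rw [ind_not_of heT, zero_mul, zero_mul, Real.exp_zero]
      linarith

theorem exp : S_exp := by
  classical
  intro E W _ S T p v C t hp hX hTS l l0 l1
  have h := exp_aux (T := T) hp hX l0 l1 S.card S ∅ ∅ rfl (Finset.disjoint_empty_right _)
    (Finset.union_empty _) (Finset.empty_subset _) (by simp)
  refine le_trans (le_of_eq (Ex_congr fun A _ => ?_)) h
  congr 1
  unfold xp Mt Vt
  rw [Finset.empty_union, Finset.natCast_card_filter, Finset.mul_sum, Finset.mul_sum,
    ← Finset.sum_sub_distrib]
  rw [← Finset.sum_subset hTS]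
  · apply Finset.sum_congr rfl
    intro e he
    rw [ind_of he, one_mul]
    by_cases ht : t e (C A)
    · rw [ind_of ht, if_pos ht]
      ring
    · rw [ind_not_of ht, if_neg ht]
      ring
  · intro e _ he
    rw [ind_not_of he, zero_mul, mul_zero]

end Pool.Agent.Y941.OA
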